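import Pool.Agent.MP_e99f36_lc.H71.Loc2

/-! If Jensen's diamond principle holds on every stationary subset of every sufficiently large
regular cardinal (as it does in the constructible universe), then every Omega-spectrum has a
cohomological localization. -/

namespace Pool.Agent.Results.MP_e99f36_lc.DiamondCL

open Pool.Agent.MP_e99f36_lc.H71

theorem result (h : ∃ μ : Cardinal.{0}, ∀ κ : Cardinal.{0}, κ.IsRegular → μ < κ →
    ∀ S : Set κ.ord.ToType, IsStationary S → Diamond κ S) : CL := by
  obtain ⟨μ, hμ⟩ := h
  exact cl_of_bounded fun E => core E hμ

end Pool.Agent.Results.MP_e99f36_lc.DiamondCL
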