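import Pool.Agent.MP_e99f36_lc.H88.Loc

/-! Without any set-theoretic hypothesis: every Omega-spectrum `E` has a localization with
`E^*`-local values such that the smash product of any two cofibres of the units is
`E^*`-acyclic. It is the cohomological localization when acyclicity of a smash square implies
acyclicity. -/

namespace Pool.Agent.Results.MP_e99f36_lc.SquareCL

open CategoryTheory Pool.Agent.MP_e99f36_lc.H71 Pool.Agent.MP_e99f36_lc.H88

theorem result (E : OmegaSpectrum) : ∃ (L : Ho ⥤ Ho) (η : 𝟭 Ho ⟶ L)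
    (i : ∀ X : Ho, X.as ⟶ (L.obj X).as),
    (∀ X, toHo.map (i X) = η.app X ∧ Mono (i X).1 ∧ IsCohLocal E (L.obj X)) ∧
    (∀ X Y, (Function.Bijective fun f : L.obj X ⟶ L.obj Y => η.app X ≫ f) ∧
      Acyclic E ((SSet.Subcomplex.range (i X).1).unionProd (SSet.Subcomplex.range (i Y).1))) ∧
    ((∀ (B : SSet.{0}) (S : B.Subcomplex), Acyclic E (S.unionProd S) → Acyclic E S) →
      ∀ X, IsCohEquiv E (η.app X)) :=
  approx E

end Pool.Agent.Results.MP_e99f36_lc.SquareCL
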