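import Pool.Agent.MP_e99f36_lc.H71.SC

/-! If for every cardinal `δ` there is a `δ`-strongly compact cardinal (for instance, if there is
a proper class of strongly compact cardinals), then every Omega-spectrum has a cohomological
localization. -/

namespace Pool.Agent.Results.MP_e99f36_lc.StronglyCompactCL

open Pool.Agent.MP_e99f36_lc.H71

theorem result (h : ∀ δ : Cardinal.{0}, ∃ κ : Cardinal.{0}, δ ≤ κ ∧
    ∀ (I : Type) (F : Filter I), F.NeBot → CardinalInterFilter F κ →
      ∃ U : Ultrafilter I, (U : Filter I) ≤ F ∧ CardinalInterFilter (U : Filter I) δ) : CL :=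
  cl_of_uext fun δ => (h δ).imp fun _ hκ => hκ.2

end Pool.Agent.Results.MP_e99f36_lc.StronglyCompactCL
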